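import Pool.Agent.Helper98.EQ.Goals
import Pool.Agent.Helper87.EP.CEN
import Mathlib

/-!
Packet CEN of project EQ: the blocks of the centralisers.
Adapted from `Pool/Agent/Helper87/EP/CEN.lean`.
-/

set_option autoImplicit false
set_option linter.unusedSectionVars false

namespace Pool.Agent.Helper60.EQ.CEN

open MonoidAlgebra IsLocalRing Pool.Agent.Helper17.PF Pool.Agent.Helper98.EQ
open Pool.Agent.Helper47.EP (Dat Chr Hs Om ee ev pHB Om_zero_right Om_zero_left)
open Pool.Agent.Helper87.EP.CEN (isBlock_of_equiv coeff_br cent_bot eqv br_bot)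

section part2

variable {p : ℕ} [Fact p.Prime] {T : Dat p} {A : Type} [Fintype A] [DecidableEq A]
  {D : Type} [Group D] {M : SA T A D}

theorem ee_coeff {R : Type} [CommRing R] (C : Chr T R) (g : Hs T A) :
    (ee C A).coeff g = if g.v = 0 then C.il * C.ψ (-g.z) else 0 := by
  have h := (pHB p T A R C).2.2.2.2.1 0 g
  have h1 : ev C (0 : A → T.K) = ee C A := by
    unfold ev
    have : (⟨0, 0⟩ : Hs T A) = 1 := rfl
    rw [this, ← one_def, one_mul]
  rw [← h1, h]

theorem ee_map {R S : Type} [CommRing R] [CommRing S] (C : Chr T R) (f : R →+* S) :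
    MonoidAlgebra.mapRingHom (Hs T A) f (ee C A) = ee (C.map f) A :=
  ((pHB p T A R C).2.2.2.2.2.2 S f).1

theorem inE_coeff (R : Type) [CommRing R] (x : MonoidAlgebra R (Hs T A)) (g : GG M)
    [Decidable (g.right = 1)] :
    (inE M R x).coeff g = if g.right = 1 then x.coeff g.left else 0 := by
  classical
  unfold inE
  induction x using MonoidAlgebra.induction_linear with
  | zero => simp
  | add x y hx hy =>
    rw [map_add, coeff_add, Finsupp.add_apply, hx, hy, coeff_add, Finsupp.add_apply]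
    split_ifs <;> simp
  | single h a =>
    rw [mapDomainRingHom_apply, mapDomain_single, coeff_single, coeff_single, Finsupp.single_apply,
      Finsupp.single_apply]
    by_cases hr : g.right = 1
    · rw [if_pos hr]
      by_cases hl : h = g.left
      · rw [if_pos hl, if_pos]
        ext1
        · simp [hl]
        · simp [hr]
      · rw [if_neg hl, if_neg]
        intro h'
        apply hl
        rw [← h']
        simp
    · rw [if_neg hr, if_neg]
      intro h'
      apply hr
      rw [← h']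
      simp

theorem inE_map {R S : Type} [CommRing R] [CommRing S] (f : R →+* S)
    (x : MonoidAlgebra R (Hs T A)) :
    MonoidAlgebra.mapRingHom (GG M) f (inE M R x) =
      inE M S (MonoidAlgebra.mapRingHom (Hs T A) f x) := by
  have h := MonoidAlgebra.mapRingHom_comp_mapDomainRingHom f
    (SemidirectProduct.inl : Hs T A →* GG M)
  exact congrArg (fun φ => φ x) h

/-- elements of the centraliser -/
theorem cent_v (hM : ∀ v, (∀ d, M.m d v = v) → v = 0) {g : GG M}
    (hg : g ∈ Subgroup.centralizer ((DD M : Subgroup (GG M)) : Set (GG M))) :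
    g.left.v = 0 := by
  rw [Subgroup.mem_centralizer_iff] at hg
  apply hM
  intro d
  have h := hg (SemidirectProduct.inr d) ⟨d, rfl⟩
  have h1 := congrArg SemidirectProduct.left h
  simp only [SemidirectProduct.mul_left, SemidirectProduct.left_inr, one_mul,
    SemidirectProduct.right_inr, map_one, mul_one] at h1
  exact congrArg (fun x : Hs T A => x.v) h1

theorem cent_r {g : GG M}
    (hg : g ∈ Subgroup.centralizer ((DD M : Subgroup (GG M)) : Set (GG M))) (d : D) :
    d * g.right = g.right * d := by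
  rw [Subgroup.mem_centralizer_iff] at hg
  have h := hg (SemidirectProduct.inr d) ⟨d, rfl⟩
  have h1 := congrArg SemidirectProduct.right h
  simpa using h1

theorem s_c (d : D) (g : Hs T A) (hg : g.v = 0) : M.s d g = g := by
  have h0 : M.m d 0 = 0 := by
    have h := M.add d 0 0
    rw [add_zero] at h
    exact left_eq_add.1 h
  rw [M.s_apply]
  ext1
  · show M.m d g.v = g.v
    rw [hg, h0]
  · rfl

theorem comm (hM : ∀ v, (∀ d, M.m d v = v) → v = 0) {g h : GG M}
    (hg : g ∈ Subgroup.centralizer ((DD M : Subgroup (GG M)) : Set (GG M)))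
    (hh : h ∈ Subgroup.centralizer ((DD M : Subgroup (GG M)) : Set (GG M))) :
    g * h = h * g := by
  have h1 := cent_v hM hg
  have h2 := cent_v hM hh
  apply SemidirectProduct.ext
  · rw [SemidirectProduct.mul_left, SemidirectProduct.mul_left]
    have e1 : (M.s) g.right h.left = h.left := s_c _ _ h2
    have e2 : (M.s) h.right g.left = g.left := s_c _ _ h1
    rw [e1, e2]
    apply Hs.ext
    · rw [Hs.mul_v, Hs.mul_v, add_comm]
    · rw [Hs.mul_z, Hs.mul_z, h1, h2, add_comm g.left.z]
  · rw [SemidirectProduct.mul_right, SemidirectProduct.mul_right]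
    exact (cent_r hg _).symm ▸ (cent_r hh g.right)

theorem c_mem (z : ZMod T.l) : (SemidirectProduct.inl (⟨0, z⟩ : Hs T A) : GG M) ∈
    Subgroup.centralizer ((DD M : Subgroup (GG M)) : Set (GG M)) := by
  rw [Subgroup.mem_centralizer_iff]
  rintro _ ⟨d, rfl⟩
  apply SemidirectProduct.ext
  · rw [SemidirectProduct.mul_left, SemidirectProduct.mul_left]
    have e1 : M.s d (⟨0, z⟩ : Hs T A) = ⟨0, z⟩ := s_c _ _ rfl
    simp [e1]
  · simp

/-- the central elements of the Heisenberg group -/
def cz (M : SA T A D) (z : ZMod T.l) :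
    Subgroup.centralizer ((DD M : Subgroup (GG M)) : Set (GG M)) :=
  ⟨SemidirectProduct.inl (⟨0, z⟩ : Hs T A), c_mem z⟩

theorem eq_cz (hM : ∀ v, (∀ d, M.m d v = v) → v = 0)
    (h : Subgroup.centralizer ((DD M : Subgroup (GG M)) : Set (GG M)))
    (hr : h.1.right = 1) : h = cz M h.1.left.z := by
  apply Subtype.ext
  apply SemidirectProduct.ext
  · show h.1.left = _
    apply Hs.ext
    · exact cent_v hM h.2
    · rfl
  · exact hr

/-- the coefficients of the block -/
theorem bb_coeff {𝒪 : Type} [CommRing 𝒪] [IsLocalRing 𝒪] (C : Chr T 𝒪)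
    (hM : ∀ v, (∀ d, M.m d v = v) → v = 0)
    (h : Subgroup.centralizer ((DD M : Subgroup (GG M)) : Set (GG M)))
    [Decidable (h.1.right = 1)] :
    (br (DD M) (inE M 𝒪 (ee C A))).coeff h =
      if h.1.right = 1 then (C.map (residue 𝒪)).il * (C.map (residue 𝒪)).ψ (-h.1.left.z) else 0 := by
  classical
  rw [coeff_br, inE_coeff, ee_coeff, if_pos (cent_v hM h.2)]
  split_ifs
  · rw [map_mul]
    rfl
  · rw [map_zero]

/-- the block as a sum -/
theorem bb_sum {𝒪 : Type} [CommRing 𝒪] [IsLocalRing 𝒪] (C : Chr T 𝒪)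
    (hM : ∀ v, (∀ d, M.m d v = v) → v = 0) :
    br (DD M) (inE M 𝒪 (ee C A)) = (C.map (residue 𝒪)).il •
      ∑ z : ZMod T.l, (C.map (residue 𝒪)).ψ (-z) • single (cz M z) (1 : ResidueField 𝒪) := by
  classical
  ext h
  rw [bb_coeff C hM h, coeff_smul, Finsupp.smul_apply, coeff_sum, Finsupp.finsetSum_apply]
  simp only [coeff_smul, Finsupp.smul_apply, coeff_single, Finsupp.single_apply, smul_eq_mul,
    mul_ite, mul_one, mul_zero]
  by_cases hr : h.1.right = 1
  · rw [if_pos hr]
    have hh := eq_cz hM h hr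
    have : ∀ z : ZMod T.l, cz M z = h ↔ z = h.1.left.z := by
      intro z
      constructor
      · intro hz
        rw [← hz]
        rfl
      · intro hz
        rw [hz, ← hh]
    simp only [this, Finset.sum_ite_eq', Finset.mem_univ, if_true]
  · rw [if_neg hr, Finset.sum_eq_zero, mul_zero]
    intro z _
    rw [if_neg]
    intro hz
    apply hr
    rw [← hz]
    rfl

theorem bb_mul {𝒪 : Type} [CommRing 𝒪] [IsLocalRing 𝒪] (C : Chr T 𝒪)
    (hM : ∀ v, (∀ d, M.m d v = v) → v = 0) (z : ZMod T.l) :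
    br (DD M) (inE M 𝒪 (ee C A)) * single (cz M z) 1 =
      (C.map (residue 𝒪)).ψ z • br (DD M) (inE M 𝒪 (ee C A)) := by
  classical
  ext h
  rw [coeff_mul_single_apply, mul_one, coeff_smul, Finsupp.smul_apply, bb_coeff C hM,
    bb_coeff C hM, smul_eq_mul]
  have h1 : (h * (cz M z)⁻¹).1.right = h.1.right := by
    show (h.1 * (cz M z).1⁻¹).right = _
    rw [SemidirectProduct.mul_right, SemidirectProduct.inv_right]
    show h.1.right * (1 : D)⁻¹ = _
    rw [inv_one, mul_one]
  have h2 : (h * (cz M z)⁻¹).1.left.z = h.1.left.z - z := by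
    show (h.1 * (cz M z).1⁻¹).left.z = _
    rw [SemidirectProduct.mul_left]
    have h3 : ((cz M z).1⁻¹).left = (⟨0, -z⟩ : Hs T A) := by
      show (SemidirectProduct.inl (⟨0, z⟩ : Hs T A) : GG M)⁻¹.left = _
      rw [← map_inv]
      show (⟨-0, -z⟩ : Hs T A) = _
      rw [neg_zero]
    rw [h3, Hs.mul_z]
    have h4 : (M.s) h.1.right (⟨0, -z⟩ : Hs T A) = ⟨0, -z⟩ := s_c _ _ rfl
    rw [h4]
    show h.1.left.z + -z + Om h.1.left.v 0 = _
    rw [Om_zero_right]
    ring
  rw [h1, h2]
  split_ifs
  · have : -(h.1.left.z - z) = z + -h.1.left.z := by ring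
    rw [this, AddChar.map_add_eq_mul]
    ring
  · rw [mul_zero]

theorem cent_comm (hM : ∀ v, (∀ d, M.m d v = v) → v = 0) {F : Type} [CommRing F]
    (x y : MonoidAlgebra F
      (Subgroup.centralizer ((DD M : Subgroup (GG M)) : Set (GG M)))) :
    x * y = y * x := by
  induction x using MonoidAlgebra.induction_linear with
  | zero => rw [zero_mul, mul_zero]
  | add x₁ x₂ h1 h2 => rw [add_mul, mul_add, h1, h2]
  | single h a =>
    induction y using MonoidAlgebra.induction_linear with
    | zero => rw [zero_mul, mul_zero]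
    | add x₁ x₂ h1 h2 => rw [add_mul, mul_add, h1, h2]
    | single h' a' =>
      rw [single_mul_single, single_mul_single, mul_comm a a']
      have : h * h' = h' * h := Subtype.ext (comm hM h.2 h'.2)
      rw [this]

theorem bb_idem {𝒪 : Type} [CommRing 𝒪] [IsLocalRing 𝒪] (C : Chr T 𝒪)
    (hM : ∀ v, (∀ d, M.m d v = v) → v = 0) :
    br (DD M) (inE M 𝒪 (ee C A)) * br (DD M) (inE M 𝒪 (ee C A)) =
      br (DD M) (inE M 𝒪 (ee C A)) := by
  classical
  set b := br (DD M) (inE M 𝒪 (ee C A)) with hb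
  calc b * b = b * ((C.map (residue 𝒪)).il •
      ∑ z : ZMod T.l, (C.map (residue 𝒪)).ψ (-z) • single (cz M z) (1 : ResidueField 𝒪)) := by
        rw [← bb_sum C hM]
    _ = (C.map (residue 𝒪)).il • ∑ z : ZMod T.l, b := by
        rw [mul_smul_comm, Finset.mul_sum]
        congr 1
        refine Finset.sum_congr rfl fun z _ => ?_
        rw [mul_smul_comm, hb, bb_mul C hM, smul_smul, ← AddChar.map_add_eq_mul,
          neg_add_cancel, AddChar.map_zero_eq_one, one_smul]
    _ = b := by
        rw [Finset.sum_const, Finset.card_univ, ZMod.card, ← Nat.cast_smul_eq_nsmul (ResidueField 𝒪),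
          smul_smul, (C.map (residue 𝒪)).il_mul, one_smul]

theorem bb_ne {𝒪 : Type} [CommRing 𝒪] [IsLocalRing 𝒪] (C : Chr T 𝒪)
    (hM : ∀ v, (∀ d, M.m d v = v) → v = 0) :
    br (DD M) (inE M 𝒪 (ee C A)) ≠ 0 := by
  classical
  intro h0
  have h := bb_coeff C hM 1
  have hr1 : (1 : Subgroup.centralizer
      ((DD M : Subgroup (GG M)) : Set (GG M))).1.right = 1 := rfl
  rw [h0, if_pos hr1] at h
  have h1 : (C.map (residue 𝒪)).ψ
      (-((1 : Subgroup.centralizer ((DD M : Subgroup (GG M)) : Set (GG M))).1.left.z)) =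
      1 := by
    show (C.map (residue 𝒪)).ψ (-0) = 1
    rw [neg_zero, AddChar.map_zero_eq_one]
  rw [h1, mul_one] at h
  have h2 := (C.map (residue 𝒪)).il_mul
  rw [← h] at h2
  simp at h2

theorem pow_right (h : Subgroup.centralizer ((DD M : Subgroup (GG M)) : Set (GG M)))
    (n : ℕ) : (h ^ n).1.right = h.1.right ^ n := by
  have : (h ^ n).1 = h.1 ^ n := rfl
  rw [this]
  exact map_pow (SemidirectProduct.rightHom : GG M →* D) h.1 n

/-- the powers -/
theorem pow_mem [Finite D] {𝒪 : Type} [CommRing 𝒪] [IsLocalRing 𝒪]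
    [CharP (ResidueField 𝒪) p] (C : Chr T 𝒪)
    (hM : ∀ v, (∀ d, M.m d v = v) → v = 0) (N : ℕ) (hN : Nat.card D = p ^ N)
    (x : MonoidAlgebra (ResidueField 𝒪)
      (Subgroup.centralizer ((DD M : Subgroup (GG M)) : Set (GG M)))) :
    ∃ c : ResidueField 𝒪, br (DD M) (inE M 𝒪 (ee C A)) * x ^ (p ^ N) =
      c • br (DD M) (inE M 𝒪 (ee C A)) := by
  have hp : p.Prime := Fact.out
  have hchar : CharP (MonoidAlgebra (ResidueField 𝒪)
      (Subgroup.centralizer ((DD M : Subgroup (GG M)) : Set (GG M)))) p :=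
    charP_of_injective_algebraMap (algebraMap (ResidueField 𝒪) _).injective p
  induction x using MonoidAlgebra.induction_linear with
  | zero =>
    refine ⟨0, ?_⟩
    rw [zero_pow (pow_ne_zero N hp.ne_zero), mul_zero, zero_smul]
  | add x y hx hy =>
    obtain ⟨c, hc⟩ := hx
    obtain ⟨d, hd⟩ := hy
    refine ⟨c + d, ?_⟩
    rw [add_pow_char_pow_of_commute p N (cent_comm hM x y), mul_add, hc, hd, add_smul]
  | single h a =>
    have h1 : (h ^ (p ^ N)).1.right = 1 := by
      rw [pow_right, ← hN, pow_card_eq_one']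
    have h2 := eq_cz hM _ h1
    rw [single_pow, h2]
    refine ⟨a ^ p ^ N * (C.map (residue 𝒪)).ψ (h ^ (p ^ N)).1.left.z, ?_⟩
    have h3 : (single (cz M (h ^ (p ^ N)).1.left.z) (a ^ p ^ N) : MonoidAlgebra (ResidueField 𝒪)
      (Subgroup.centralizer ((DD M : Subgroup (GG M)) : Set (GG M)))) =
      (a ^ p ^ N) • single (cz M (h ^ (p ^ N)).1.left.z) 1 := by
      rw [smul_single, smul_eq_mul, mul_one]
    rw [h3, mul_smul_comm, bb_mul C hM, smul_smul]

end part2

theorem t (hBLK : S_BLK) : S_CEN := by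
  intro p _ T A _ _ D _ _ hD M hM 𝒪 _ _ _ _ C I
  constructor
  · apply isBlock_of_equiv (mapDomainRingEquiv (ResidueField 𝒪) (eqv (G := GG M)))
    rw [br_bot, inE_map, ee_map]
    exact (hBLK p T A D hD M).1 (ResidueField 𝒪) (C.map (residue 𝒪)) (I.map (residue 𝒪))
  · obtain ⟨N, hN⟩ := (IsPGroup.iff_card).1 hD
    refine ⟨?_, bb_idem C hM, bb_ne C hM, ?_⟩
    · rw [Semigroup.mem_center_iff]
      intro g
      exact cent_comm hM _ _
    · intro f _ hff hbf _
      have hp : p.Prime := Fact.out
      obtain ⟨c, hc⟩ := pow_mem C hM N hN f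
      have h1 : ∀ n : ℕ, f ^ (n + 1) = f := by
        intro n
        induction n with
        | zero => rw [zero_add, pow_one]
        | succ n ih => rw [pow_succ, ih, hff]
      have h2 : f ^ (p ^ N) = f := by
        obtain ⟨m, hm⟩ := Nat.exists_eq_succ_of_ne_zero (pow_ne_zero N hp.ne_zero)
        rw [hm]
        exact h1 m
      rw [h2, hbf] at hc
      have h3 : (c * c) • br (DD M) (inE M 𝒪 (ee C A)) =
          c • br (DD M) (inE M 𝒪 (ee C A)) := by
        have h4 := hff
        rw [hc, smul_mul_smul_comm, bb_idem C hM] at h4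
        exact h4
      have h5 : (c * c - c) • br (DD M) (inE M 𝒪 (ee C A)) = 0 := by
        rw [sub_smul, h3, sub_self]
      rcases smul_eq_zero.1 h5 with h6 | h6
      · have h7 : c * (c - 1) = 0 := by rw [← h6]; ring
        rcases mul_eq_zero.1 h7 with h8 | h8
        · left
          rw [hc, h8, zero_smul]
        · right
          rw [hc, sub_eq_zero.1 h8, one_smul]
      · exact absurd h6 (bb_ne C hM)

end Pool.Agent.Helper60.EQ.CEN
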